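import Pool.Agent.H90.LC.Targets
import Pool.Agent.H75.PS.Selberg

/-!
The upper bound sieve with one or two classes for each prime.
-/

set_option autoImplicit false

open Finset ArithmeticFunction

namespace Pool.Agent.H57.LCL

open BoundingSieve Pool.Agent.H90.LC Pool.Agent.H75.PS Pool.Agent.H44.MS

/-- The residues modulo a product of different primes with prescribed residues. -/
private theorem card_res (Ω : ℕ → Finset ℕ) (T : Finset ℕ)
    (hT : ∀ p ∈ T, p.Prime ∧ Ω p ⊆ range p) :
    ((range (∏ p ∈ T, p)).filter (fun r => ∀ p ∈ T, r % p ∈ Ω p)).card = ∏ p ∈ T, (Ω p).card := by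
  classical
  induction T using Finset.induction_on with
  | empty => simp
  | insert q T hq ih =>
    have ih' := ih (fun p hp => hT p (mem_insert_of_mem hp))
    have hqp := (hT q (mem_insert_self q T)).1
    have hqo := (hT q (mem_insert_self q T)).2
    have hcop : Nat.Coprime q (∏ p ∈ T, p) := by
      apply Nat.Coprime.prod_right
      intro p hp
      exact (Nat.coprime_primes hqp (hT p (mem_insert_of_mem hp)).1).mpr (fun h => hq (h ▸ hp))
    have hTpos : 0 < ∏ p ∈ T, p := Finset.prod_pos (fun p hp => (hT p (mem_insert_of_mem hp)).1.pos)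
    rw [prod_insert hq, prod_insert hq, ← ih', ← card_product]
    apply card_bij (fun r _ => (r % q, r % ∏ p ∈ T, p))
    · intro r hr
      rw [mem_filter, mem_range] at hr
      rw [mem_product, mem_filter, mem_range]
      refine ⟨hr.2 q (mem_insert_self q T), Nat.mod_lt _ hTpos, ?_⟩
      intro p hp
      show r % (∏ p ∈ T, p) % p ∈ Ω p
      rw [Nat.mod_mod_of_dvd _ (dvd_prod_of_mem _ hp)]
      exact hr.2 p (mem_insert_of_mem hp)
    · intro a ha b hb hab
      rw [mem_filter, mem_range] at ha hb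
      rw [Prod.mk.injEq] at hab
      have h1 : a ≡ b [MOD q * ∏ p ∈ T, p] :=
        (Nat.modEq_and_modEq_iff_modEq_mul hcop).mp ⟨hab.1, hab.2⟩
      have h2 := Nat.ModEq.eq_of_lt_of_lt h1 ha.1 hb.1
      exact h2
    · rintro ⟨x, y⟩ hxy
      rw [mem_product, mem_filter, mem_range] at hxy
      simp only at hxy
      have hxq : x < q := by
        have := hqo hxy.1
        rwa [mem_range] at this
      let c := Nat.chineseRemainder hcop x y
      have hc1 : (c : ℕ) % q = x := by
        have := c.2.1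
        rw [Nat.ModEq, Nat.mod_eq_of_lt hxq] at this
        exact this
      have hc2 : (c : ℕ) % (∏ p ∈ T, p) = y := by
        have := c.2.2
        rw [Nat.ModEq, Nat.mod_eq_of_lt hxy.2.1] at this
        exact this
      refine ⟨(c : ℕ) % (q * ∏ p ∈ T, p), ?_, ?_⟩
      · rw [mem_filter, mem_range]
        refine ⟨Nat.mod_lt _ (Nat.mul_pos hqp.pos hTpos), ?_⟩
        intro p hp
        rw [mem_insert] at hp
        rcases hp with hp | hp
        · subst hp
          rw [Nat.mod_mod_of_dvd _ (Dvd.intro _ rfl), hc1]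
          exact hxy.1
        · rw [Nat.mod_mod_of_dvd _ ((dvd_prod_of_mem _ hp).mul_left q)]
          have := hxy.2.2 p hp
          rw [← hc2, Nat.mod_mod_of_dvd _ (dvd_prod_of_mem _ hp)] at this
          exact this
      · rw [Nat.mod_mod_of_dvd _ (Dvd.intro _ rfl), Nat.mod_mod_of_dvd _ (Dvd.intro_left _ rfl),
          hc1, hc2]

/-- One residue class. -/
private theorem card_class (U d r : ℕ) (hd : 0 < d) (hr : r < d) :
    |((((range U).filter (fun u => u % d = r)).card : ℝ) - (U : ℝ) / d)| ≤ 1 := by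
  have h1 : ((range U).filter (fun u => u % d = r)).card = Nat.count (· ≡ r [MOD d]) U := by
    rw [Nat.count_eq_card_filter_range]
    congr 1
    apply filter_congr
    intro u _
    rw [Nat.ModEq, Nat.mod_eq_of_lt hr]
  rw [h1, Nat.count_modEq_card U hd r]
  have hd0 : (0 : ℝ) < d := by exact_mod_cast hd
  have h2 : (U : ℝ) = d * (U / d : ℕ) + (U % d : ℕ) := by exact_mod_cast (Nat.div_add_mod U d).symm
  have h3 : ((U % d : ℕ) : ℝ) < d := by exact_mod_cast Nat.mod_lt U hd
  have h4 : (0 : ℝ) ≤ ((U % d : ℕ) : ℝ) := Nat.cast_nonneg _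
  have h5 : (U : ℝ) / d = (U / d : ℕ) + ((U % d : ℕ) : ℝ) / d := by
    rw [h2]
    field_simp
  have h6 : ((U % d : ℕ) : ℝ) / d < 1 := by
    rw [div_lt_one hd0]
    exact h3
  have h7 : 0 ≤ ((U % d : ℕ) : ℝ) / d := div_nonneg h4 hd0.le
  rw [h5]
  push_cast
  split_ifs
  · rw [abs_le]
    push_cast
    constructor <;> linarith
  · rw [abs_le]
    push_cast
    constructor <;> linarith

/-- The numbers with prescribed residues. -/
private theorem card_classes (U : ℕ) (Ω : ℕ → Finset ℕ) (T : Finset ℕ)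
    (hT : ∀ p ∈ T, p.Prime ∧ Ω p ⊆ range p) :
    |((((range U).filter (fun u => ∀ p ∈ T, u % p ∈ Ω p)).card : ℝ) -
      (∏ p ∈ T, ((Ω p).card : ℝ) / p) * U)| ≤ ∏ p ∈ T, ((Ω p).card : ℝ) := by
  classical
  set d := ∏ p ∈ T, p with hd
  have hdpos : 0 < d := Finset.prod_pos (fun p hp => (hT p hp).1.pos)
  have hd0 : (0 : ℝ) < d := by exact_mod_cast hdpos
  have h1 : ((range U).filter (fun u => ∀ p ∈ T, u % p ∈ Ω p)).card =
      ∑ r ∈ (range d).filter (fun r => ∀ p ∈ T, r % p ∈ Ω p),
        ((range U).filter (fun u => u % d = r)).card := by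
    rw [← card_biUnion]
    · congr 1
      ext u
      rw [mem_filter, mem_biUnion]
      constructor
      · rintro ⟨hu, h⟩
        refine ⟨u % d, ?_, ?_⟩
        · rw [mem_filter, mem_range]
          refine ⟨Nat.mod_lt _ hdpos, ?_⟩
          intro p hp
          rw [Nat.mod_mod_of_dvd _ (dvd_prod_of_mem _ hp)]
          exact h p hp
        · rw [mem_filter]
          exact ⟨hu, rfl⟩
      · rintro ⟨r, hr, hu⟩
        rw [mem_filter] at hr hu
        refine ⟨hu.1, ?_⟩
        intro p hp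
        have := hr.2 p hp
        rw [← hu.2, Nat.mod_mod_of_dvd _ (dvd_prod_of_mem _ hp)] at this
        exact this
    · intro a _ b _ hab
      rw [Function.onFun, disjoint_left]
      intro u hu hu'
      rw [mem_filter] at hu hu'
      exact hab (hu.2.symm.trans hu'.2)
  have hc := card_res Ω T hT
  have h2 : (∏ p ∈ T, ((Ω p).card : ℝ) / p) * U =
      ∑ r ∈ (range d).filter (fun r => ∀ p ∈ T, r % p ∈ Ω p), (U : ℝ) / d := by
    rw [sum_const, hc, prod_div_distrib, nsmul_eq_mul, hd]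
    push_cast
    ring
  rw [h1, h2]
  push_cast
  rw [← sum_sub_distrib]
  refine (abs_sum_le_sum_abs _ _).trans ?_
  calc ∑ r ∈ (range d).filter (fun r => ∀ p ∈ T, r % p ∈ Ω p),
        |((((range U).filter (fun u => u % d = r)).card : ℝ) - (U : ℝ) / d)|
      ≤ ∑ r ∈ (range d).filter (fun r => ∀ p ∈ T, r % p ∈ Ω p), (1 : ℝ) := by
        apply sum_le_sum
        intro r hr
        rw [mem_filter, mem_range] at hr
        exact card_class U d r hdpos hr.1
    _ = ∏ p ∈ T, ((Ω p).card : ℝ) := by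
        rw [sum_const, hc, nsmul_eq_mul, mul_one]
        push_cast
        rfl

private theorem prod_sqf (P : Finset ℕ) (hP : ∀ p ∈ P, p.Prime) : Squarefree (∏ p ∈ P, p) := by
  induction P using Finset.induction_on with
  | empty => simp
  | insert p S hp ih =>
    rw [Finset.prod_insert hp]
    rw [Nat.squarefree_mul_iff]
    refine ⟨?_, (hP p (Finset.mem_insert_self p S)).squarefree,
      ih (fun q hq => hP q (Finset.mem_insert_of_mem hq))⟩
    apply Nat.Coprime.prod_right
    intro q hq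
    exact (Nat.coprime_primes (hP p (Finset.mem_insert_self p S))
      (hP q (Finset.mem_insert_of_mem hq))).mpr (fun hpq => hp (hpq ▸ hq))

private theorem prime_dvd_prod {P : Finset ℕ} (hP : ∀ p ∈ P, p.Prime) {p : ℕ} (hp : p.Prime) :
    p ∣ ∏ p ∈ P, p ↔ p ∈ P := by
  constructor
  · intro h
    obtain ⟨q, hq, hpq⟩ := (Prime.dvd_finsetProd_iff hp.prime _).mp h
    have := (Nat.prime_dvd_prime_iff_eq hp (hP q hq)).mp hpq
    rwa [this]
  · intro h
    exact Finset.dvd_prod_of_mem _ h

/-- The number of the classes. -/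
private noncomputable def wf (P : Finset ℕ) (Ω : ℕ → Finset ℕ) (p : ℕ) : ℝ := by
  classical exact if p ∈ P then ((Ω p).card : ℝ) else 1

/-- The product of the primes at which `u` lies in a class. -/
private noncomputable def av (P : Finset ℕ) (Ω : ℕ → Finset ℕ) (u : ℕ) : ℕ :=
  ∏ p ∈ P.filter (fun p => u % p ∈ Ω p), p

private theorem av_dvd {P : Finset ℕ} {Ω : ℕ → Finset ℕ} (hP : ∀ p ∈ P, p.Prime) (u d : ℕ)
    (hd : d ∣ ∏ p ∈ P, p) :
    d ∣ av P Ω u ↔ ∀ p ∈ d.primeFactors, u % p ∈ Ω p := by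
  have hsq : Squarefree d := (prod_sqf P hP).squarefree_of_dvd hd
  have hF : ∀ p ∈ P.filter (fun p => u % p ∈ Ω p), p.Prime := fun p hp => hP p (mem_filter.mp hp).1
  constructor
  · intro h p hp
    have hpp := Nat.prime_of_mem_primeFactors hp
    have h1 : p ∣ av P Ω u := (Nat.dvd_of_mem_primeFactors hp).trans h
    unfold av at h1
    have h2 := (prime_dvd_prod hF hpp).mp h1
    exact (mem_filter.mp h2).2
  · intro h
    rw [← Nat.prod_primeFactors_of_squarefree hsq]
    unfold av
    apply prod_dvd_prod_of_subset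
    intro p hp
    rw [mem_filter]
    refine ⟨?_, h p hp⟩
    exact (prime_dvd_prod hP (Nat.prime_of_mem_primeFactors hp)).mp
      ((Nat.dvd_of_mem_primeFactors hp).trans hd)

/-- The sieve problem. -/
private noncomputable def sv (U : ℕ) (P : Finset ℕ) (Ω : ℕ → Finset ℕ)
    (hP : ∀ p ∈ P, p.Prime ∧ Ω p ⊆ range p ∧ 1 ≤ (Ω p).card ∧ (Ω p).card < p) :
    BoundingSieve where
  support := (range U).image (av P Ω)
  prodPrimes := ∏ p ∈ P, p
  prodPrimes_squarefree := prod_sqf P (fun p hp => (hP p hp).1)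
  weights := fun v => (((range U).filter (fun u => av P Ω u = v)).card : ℝ)
  weights_nonneg := fun _ => Nat.cast_nonneg _
  totalMass := U
  nu := prodPrimeFactors (fun p => wf P Ω p / p)
  nu_mult := IsMultiplicative.prodPrimeFactors _
  nu_pos_of_prime := by
    intro p hp hd
    have h := (prime_dvd_prod (fun q hq => (hP q hq).1) hp).mp hd
    rw [prodPrimeFactors_apply hp.ne_zero, hp.primeFactors, prod_singleton, wf, if_pos h]
    have h1 : (0 : ℝ) < p := by exact_mod_cast hp.pos
    have h2 : (0 : ℝ) < (Ω p).card := by exact_mod_cast (hP p h).2.2.1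
    positivity
  nu_lt_one_of_prime := by
    intro p hp hd
    have h := (prime_dvd_prod (fun q hq => (hP q hq).1) hp).mp hd
    rw [prodPrimeFactors_apply hp.ne_zero, hp.primeFactors, prod_singleton, wf, if_pos h]
    have h1 : (0 : ℝ) < p := by exact_mod_cast hp.pos
    rw [div_lt_one h1]
    exact_mod_cast (hP p h).2.2.2

private theorem sum_fiber (U : ℕ) (a : ℕ → ℕ) (Q : ℕ → Prop) [DecidablePred Q] :
    (∑ n ∈ (range U).image a, if Q n then (((range U).filter (fun u => a u = n)).card : ℝ) else 0) =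
      (((range U).filter (fun u => Q (a u))).card : ℝ) := by
  classical
  rw [← sum_filter, ← Nat.cast_sum, ← card_biUnion]
  · congr 2
    ext u
    rw [mem_biUnion, mem_filter]
    constructor
    · rintro ⟨n, hn, hu⟩
      rw [mem_filter] at hn hu
      refine ⟨hu.1, ?_⟩
      rw [hu.2]
      exact hn.2
    · rintro ⟨hu, hq⟩
      refine ⟨a u, ?_, ?_⟩
      · rw [mem_filter, mem_image]
        exact ⟨⟨u, hu, rfl⟩, hq⟩
      · rw [mem_filter]
        exact ⟨hu, rfl⟩
  · intro x _ y _ hxy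
    rw [Function.onFun, disjoint_left]
    intro u hu hu'
    rw [mem_filter] at hu hu'
    exact hxy (hu.2.symm.trans hu'.2)

private theorem sv_rem (U : ℕ) (P : Finset ℕ) (Ω : ℕ → Finset ℕ)
    (hP : ∀ p ∈ P, p.Prime ∧ Ω p ⊆ range p ∧ 1 ≤ (Ω p).card ∧ (Ω p).card < p)
    (d : ℕ) (hd : d ∣ ∏ p ∈ P, p) : |(sv U P Ω hP).rem d| ≤ d := by
  have hPp : ∀ p ∈ P, p.Prime := fun p hp => (hP p hp).1
  have hsq : Squarefree d := (prod_sqf P hPp).squarefree_of_dvd hd
  have hsub : ∀ p ∈ d.primeFactors, p ∈ P := by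
    intro p hp
    exact (prime_dvd_prod hPp (Nat.prime_of_mem_primeFactors hp)).mp
      ((Nat.dvd_of_mem_primeFactors hp).trans hd)
  have h1 : (sv U P Ω hP).multSum d =
      (((range U).filter (fun u => ∀ p ∈ d.primeFactors, u % p ∈ Ω p)).card : ℝ) := by
    unfold multSum sv
    simp only
    rw [sum_fiber U (av P Ω) (fun n => d ∣ n)]
    congr 2
    apply filter_congr
    intro u _
    exact av_dvd hPp u d hd
  have h2 : (sv U P Ω hP).nu d = ∏ p ∈ d.primeFactors, ((Ω p).card : ℝ) / p := by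
    show prodPrimeFactors (fun p => wf P Ω p / p) d = _
    rw [prodPrimeFactors_apply hsq.ne_zero]
    apply prod_congr rfl
    intro p hp
    rw [wf, if_pos (hsub p hp)]
  have h3 := card_classes U Ω d.primeFactors
    (fun p hp => ⟨(hP p (hsub p hp)).1, (hP p (hsub p hp)).2.1⟩)
  have h4 : ∏ p ∈ d.primeFactors, ((Ω p).card : ℝ) ≤ d := by
    have h5 : (d : ℝ) = ∏ p ∈ d.primeFactors, (p : ℝ) := by
      have h6 := Nat.prod_primeFactors_of_squarefree hsq
      rw [← Nat.cast_prod]
      exact congrArg Nat.cast h6.symm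
    rw [h5]
    apply prod_le_prod
    · intro p _
      exact Nat.cast_nonneg _
    · intro p hp
      exact_mod_cast (hP p (hsub p hp)).2.2.2.le
  unfold rem
  rw [h1, h2]
  exact h3.trans h4

private theorem sv_sifted (U : ℕ) (P : Finset ℕ) (Ω : ℕ → Finset ℕ)
    (hP : ∀ p ∈ P, p.Prime ∧ Ω p ⊆ range p ∧ 1 ≤ (Ω p).card ∧ (Ω p).card < p) :
    (((range U).filter (fun u => ∀ p ∈ P, u % p ∉ Ω p)).card : ℝ) ≤ (sv U P Ω hP).siftedSum := by
  unfold siftedSum sv
  simp only
  rw [sum_fiber U (av P Ω) (fun n => Nat.Coprime (∏ p ∈ P, p) n)]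
  have : ((range U).filter (fun u => ∀ p ∈ P, u % p ∉ Ω p)) ⊆
      (range U).filter (fun u => Nat.Coprime (∏ p ∈ P, p) (av P Ω u)) := by
    intro u hu
    rw [mem_filter] at hu ⊢
    refine ⟨hu.1, ?_⟩
    have : av P Ω u = 1 := by
      unfold av
      rw [filter_eq_empty_iff.mpr (fun p hp => hu.2 p hp), prod_empty]
    rw [this]
    exact Nat.coprime_one_right _
  exact_mod_cast card_le_card this

theorem pf_SIV (hRAN : T_RAN) : T_SIV := by
  obtain ⟨u, hu⟩ := hRAN
  refine ⟨6 * u, ?_⟩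
  intro z U P Ω hz hPO
  have hP : ∀ p ∈ P, p.Prime ∧ Ω p ⊆ range p ∧ 1 ≤ (Ω p).card ∧ (Ω p).card < p := fun p hp =>
    ⟨(hPO p hp).1, (hPO p hp).2.2.1, (hPO p hp).2.2.2.1, (hPO p hp).2.2.2.2.2⟩
  have hPp : ∀ p ∈ P, p.Prime := fun p hp => (hP p hp).1
  set R := z ^ u with hRdef
  have hR : 1 ≤ R := Nat.one_le_pow _ _ (by omega)
  have h1 := sv_sifted U P Ω hP
  have h2 := selberg_bound (sv U P Ω hP) R hR
  set s := sv U P Ω hP with hs
  have hmass : s.totalMass = U := rfl
  have hprod : s.prodPrimes = ∏ p ∈ P, p := rfl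
  have hnup : ∀ p ∈ P, s.nu p = ((Ω p).card : ℝ) / p := by
    intro p hp
    show prodPrimeFactors (fun p => wf P Ω p / p) p = _
    rw [prodPrimeFactors_apply (hPp p hp).ne_zero, (hPp p hp).primeFactors, prod_singleton, wf,
      if_pos hp]
  have hg : ∀ p ∈ P, s.selbergTerms p = ((Ω p).card : ℝ) / p * (1 - ((Ω p).card : ℝ) / p)⁻¹ := by
    intro p hp
    rw [selbergTerms_apply, (hPp p hp).primeFactors, prod_singleton, hnup p hp]
  have hlt : ∀ p ∈ P, (0 : ℝ) < 1 - ((Ω p).card : ℝ) / p := by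
    intro p hp
    have h1 : (0 : ℝ) < p := by exact_mod_cast (hPp p hp).pos
    rw [sub_pos, div_lt_one h1]
    exact_mod_cast (hP p hp).2.2.2
  have h1g : ∀ p ∈ P, 1 + s.selbergTerms p = (1 - ((Ω p).card : ℝ) / p)⁻¹ := by
    intro p hp
    rw [hg p hp]
    have := (hlt p hp).ne'
    field_simp
    ring
  have hran := hu z P (fun p => s.selbergTerms p) hz (by
    intro p hp
    have hpp := hPp p hp
    have hp0 : (0 : ℝ) < p := by exact_mod_cast hpp.pos
    have hpos : 0 ≤ s.selbergTerms p := (selbergTerms_pos (by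
      rw [hprod]; exact dvd_prod_of_mem _ hp)).le
    refine ⟨hpp, (hPO p hp).2.1, hpos, ?_⟩
    show s.selbergTerms p ≤ 6 / (p : ℝ)
    rw [hg p hp]
    have hw1 : ((Ω p).card : ℝ) ≤ 2 := by exact_mod_cast (hPO p hp).2.2.2.2.1
    have hw2 : (1 : ℝ) ≤ (Ω p).card := by exact_mod_cast (hP p hp).2.2.1
    have hw3 : ((Ω p).card : ℝ) + 1 ≤ p := by exact_mod_cast (hP p hp).2.2.2
    have e1 : ((Ω p).card : ℝ) / p * (1 - ((Ω p).card : ℝ) / p)⁻¹ =
        ((Ω p).card : ℝ) / (p - (Ω p).card) := by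
      have := (hlt p hp).ne'
      have h3 : (p : ℝ) - (Ω p).card ≠ 0 := by linarith
      field_simp
    rw [e1, div_le_div_iff₀ (by linarith) hp0]
    nlinarith)
  have htot : ∑ T ∈ P.powerset, ∏ p ∈ T, s.selbergTerms p = ∏ p ∈ P, (1 + s.selbergTerms p) := by
    rw [prod_one_add]
  have hSS : (∏ p ∈ P, (1 + s.selbergTerms p)) / 2 ≤ SS s R := by
    have hspl : ∑ T ∈ P.powerset, ∏ p ∈ T, s.selbergTerms p =
        ∑ T ∈ P.powerset, ic (R < ∏ p ∈ T, p) * ∏ p ∈ T, s.selbergTerms p +
        ∑ T ∈ P.powerset.filter (fun T => ∏ p ∈ T, p ≤ R), ∏ p ∈ T, s.selbergTerms p := by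
      rw [sum_filter, ← sum_add_distrib]
      apply sum_congr rfl
      intro T _
      unfold ic
      split_ifs with a b
      · omega
      · ring
      · ring
      · omega
    have hle : ∑ T ∈ P.powerset.filter (fun T => ∏ p ∈ T, p ≤ R), ∏ p ∈ T, s.selbergTerms p ≤
        SS s R := by
      unfold Pool.Agent.H75.PS.SS
      have hinj : Set.InjOn (fun A : Finset ℕ => ∏ p ∈ A, p)
          ((P.powerset.filter (fun A => ∏ p ∈ A, p ≤ R) : Finset (Finset ℕ)) :
            Set (Finset ℕ)) := by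
        intro A hA B hB hAB
        simp only [Finset.coe_filter, Finset.mem_powerset, Set.mem_setOf_eq] at hA hB
        have h1 : (∏ p ∈ A, p).primeFactors = A :=
          Nat.primeFactors_prod (fun p hp => hPp p (hA.1 hp))
        have h2 : (∏ p ∈ B, p).primeFactors = B :=
          Nat.primeFactors_prod (fun p hp => hPp p (hB.1 hp))
        simp only at hAB
        rw [← h1, ← h2, hAB]
      have h3 : ∀ A ∈ P.powerset.filter (fun A => ∏ p ∈ A, p ≤ R),
          ∏ p ∈ A, s.selbergTerms p = s.selbergTerms (∏ p ∈ A, p) := by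
        intro A hA
        rw [Finset.mem_filter, Finset.mem_powerset] at hA
        symm
        apply selbergTerms_isMultiplicative.map_prod_of_subset_primeFactors s.prodPrimes
        rw [hprod, Nat.primeFactors_prod hPp]
        exact hA.1
      rw [Finset.sum_congr rfl h3]
      rw [← Finset.sum_image (f := fun l => s.selbergTerms l) hinj]
      apply Finset.sum_le_sum_of_subset_of_nonneg
      · intro l hl
        rw [Finset.mem_image] at hl
        obtain ⟨A, hA, rfl⟩ := hl
        rw [Finset.mem_filter, Finset.mem_powerset] at hA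
        rw [Finset.mem_filter, Nat.mem_divisors]
        refine ⟨⟨?_, prodPrimes_ne_zero⟩, hA.2⟩
        rw [hprod]
        exact Finset.prod_dvd_prod_of_subset _ _ _ hA.1
      · intro l hl _
        rw [Finset.mem_filter, Nat.mem_divisors] at hl
        exact (selbergTerms_pos hl.1.1).le
    rw [htot] at hspl
    linarith
  have hS := SS_pos s R hR
  have hinv : ∀ d : ℕ, d ∣ s.prodPrimes → (s.nu d)⁻¹ ≤ d := by
    intro d hd
    have hsq : Squarefree d := squarefree_of_dvd_prodPrimes hd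
    have hsub : ∀ p ∈ d.primeFactors, p ∈ P := by
      intro p hp
      exact (prime_dvd_prod hPp (Nat.prime_of_mem_primeFactors hp)).mp
        ((Nat.dvd_of_mem_primeFactors hp).trans hd)
    have h2 : s.nu d = ∏ p ∈ d.primeFactors, ((Ω p).card : ℝ) / p := by
      show prodPrimeFactors (fun p => wf P Ω p / p) d = _
      rw [prodPrimeFactors_apply hsq.ne_zero]
      apply prod_congr rfl
      intro p hp
      rw [wf, if_pos (hsub p hp)]
    have h5 : (d : ℝ) = ∏ p ∈ d.primeFactors, (p : ℝ) := by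
      have h6 := Nat.prod_primeFactors_of_squarefree hsq
      rw [← Nat.cast_prod]
      exact congrArg Nat.cast h6.symm
    rw [h2, ← prod_inv_distrib, h5]
    apply prod_le_prod
    · intro p _
      positivity
    · intro p hp
      have hp0 : (0 : ℝ) < p := by exact_mod_cast (hPp p (hsub p hp)).pos
      have h1 : (1 : ℝ) ≤ (Ω p).card := by exact_mod_cast (hP p (hsub p hp)).2.2.1
      rw [inv_div, div_le_iff₀ (by linarith)]
      nlinarith
  refine h1.trans (h2.trans ?_)
  apply add_le_add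
  · rw [hmass]
    have hp1 : ∏ p ∈ P, (1 + s.selbergTerms p) = (∏ p ∈ P, (1 - ((Ω p).card : ℝ) / p))⁻¹ := by
      rw [← prod_inv_distrib]
      exact prod_congr rfl h1g
    have hpp : 0 < ∏ p ∈ P, (1 - ((Ω p).card : ℝ) / p) := prod_pos hlt
    rw [hp1] at hSS
    have h6 : (SS s R)⁻¹ ≤ 2 * ∏ p ∈ P, (1 - ((Ω p).card : ℝ) / p) := by
      rw [inv_le_comm₀ hS (by positivity)]
      refine le_trans (le_of_eq ?_) hSS
      field_simp
    calc (U : ℝ) * (SS s R)⁻¹ ≤ U * (2 * ∏ p ∈ P, (1 - ((Ω p).card : ℝ) / p)) := by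
          gcongr
      _ = 2 * U * ∏ p ∈ P, (1 - ((Ω p).card : ℝ) / p) := by ring
  · have hcard : ((s.prodPrimes.divisors.filter (fun d => d ≤ R)).card : ℝ) ≤ (R:ℝ) := by
      have : s.prodPrimes.divisors.filter (fun d => d ≤ R) ⊆ Finset.Icc 1 R := by
        intro d hd
        rw [Finset.mem_filter, Nat.mem_divisors] at hd
        rw [Finset.mem_Icc]
        exact ⟨Nat.pos_of_dvd_of_pos hd.1.1 (Nat.pos_of_ne_zero hd.1.2), hd.2⟩
      have h4 := Finset.card_le_card this
      rw [Nat.card_Icc] at h4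
      exact_mod_cast h4
    have hRn : (0 : ℝ) ≤ R := Nat.cast_nonneg _
    calc ∑ d1 ∈ s.prodPrimes.divisors with d1 ≤ R, ∑ d2 ∈ s.prodPrimes.divisors with d2 ≤ R,
        (s.nu d1)⁻¹ * (s.nu d2)⁻¹ * |s.rem (d1.lcm d2)|
        ≤ ∑ d1 ∈ s.prodPrimes.divisors with d1 ≤ R,
          ∑ d2 ∈ s.prodPrimes.divisors with d2 ≤ R, (R:ℝ) ^ 4 := by
          apply Finset.sum_le_sum
          intro d1 hd1
          apply Finset.sum_le_sum
          intro d2 hd2
          rw [Finset.mem_filter, Nat.mem_divisors] at hd1 hd2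
          have f1 : (d1 : ℝ) ≤ R := by exact_mod_cast hd1.2
          have f2 : (d2 : ℝ) ≤ R := by exact_mod_cast hd2.2
          have e1 : (s.nu d1)⁻¹ ≤ R := (hinv d1 hd1.1.1).trans f1
          have e2 : (s.nu d2)⁻¹ ≤ R := (hinv d2 hd2.1.1).trans f2
          have e3 : |s.rem (d1.lcm d2)| ≤ (R:ℝ) ^ 2 := by
            refine (sv_rem U P Ω hP _ (Nat.lcm_dvd hd1.1.1 hd2.1.1)).trans ?_
            have h0 : d1.lcm d2 ≤ d1 * d2 := by
              rw [Nat.lcm]
              exact Nat.div_le_self _ _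
            have : ((d1.lcm d2 : ℕ) : ℝ) ≤ ((R * R : ℕ) : ℝ) := by
              exact_mod_cast h0.trans (Nat.mul_le_mul hd1.2 hd2.2)
            calc ((d1.lcm d2 : ℕ) : ℝ) ≤ ((R * R : ℕ) : ℝ) := this
              _ = (R:ℝ) ^ 2 := by push_cast; ring
          have p2 : 0 ≤ (s.nu d2)⁻¹ := (inv_pos.mpr (nu_pos_of_dvd_prodPrimes hd2.1.1)).le
          calc (s.nu d1)⁻¹ * (s.nu d2)⁻¹ * |s.rem (d1.lcm d2)|
              ≤ (R:ℝ) * (R:ℝ) * (R:ℝ) ^ 2 := by gcongr
            _ = (R:ℝ) ^ 4 := by ring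
      _ = ((s.prodPrimes.divisors.filter (fun d => d ≤ R)).card : ℝ) *
          ((s.prodPrimes.divisors.filter (fun d => d ≤ R)).card : ℝ) * (R:ℝ) ^ 4 := by
          rw [Finset.sum_const, Finset.sum_const]
          simp only [nsmul_eq_mul]
          ring
      _ ≤ (R:ℝ) * (R:ℝ) * (R:ℝ) ^ 4 := by gcongr
      _ = (z:ℝ) ^ (6 * u) := by
          rw [hRdef]
          push_cast
          ring

end Pool.Agent.H57.LCL
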